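import Pool.Agent.helper35.DR.SpecT

set_option autoImplicit false

namespace Pool.Agent.DR

open Pool.Agent.helper58.DC Pool.Agent.DI

theorem TDU_id {Q : Type} [Group Q] {α : Q → Q → ℂˣ} (hα : α ∈ Coc Q) (a b : Q) :
    (α a a⁻¹)⁻¹ * (α b b⁻¹)⁻¹ * α b⁻¹ a⁻¹ = (α a b)⁻¹ * (α (a * b) (a * b)⁻¹)⁻¹ := by
  obtain ⟨h1, h2, h3⟩ := hα
  have e1 := h1 a b (b⁻¹ * a⁻¹)
  have e2 := h1 b b⁻¹ a⁻¹
  rw [mul_inv_cancel_left] at e1
  rw [mul_inv_cancel, h2, mul_one] at e2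
  have e3 : α a b * α (a * b) (b⁻¹ * a⁻¹) * α b⁻¹ a⁻¹ = α a a⁻¹ * α b b⁻¹ := by
    rw [e1, mul_assoc, ← e2]
  rw [← mul_inv, ← mul_inv, mul_inv_rev a b, ← e3, mul_inv, inv_mul_cancel_right]

theorem TDU : TDU_stmt := by
  rintro Γ Q _ _ q S ψ α hα ⟨V, _, _, _, T, hT⟩
  have hα' := hα
  obtain ⟨h1, h2, h3⟩ := hα
  refine ⟨Module.Dual ℂ V, inferInstance, inferInstance, inferInstance,
    fun s => (((α (q s) (q s)⁻¹)⁻¹ : ℂˣ) : ℂ) • Module.Dual.transpose (T s⁻¹), ⟨?_, ?_, ?_⟩⟩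
  · show (((α (q 1) (q 1)⁻¹)⁻¹ : ℂˣ) : ℂ) • Module.Dual.transpose (T 1⁻¹) = 1
    rw [map_one, h2, inv_one, Units.val_one, one_smul, inv_one, hT.one]
    rfl
  · intro s hs s' hs'
    show ((((α (q s) (q s)⁻¹)⁻¹ : ℂˣ) : ℂ) • Module.Dual.transpose (T s⁻¹)) *
      ((((α (q s') (q s')⁻¹)⁻¹ : ℂˣ) : ℂ) • Module.Dual.transpose (T s'⁻¹)) =
      (((α⁻¹ (q s) (q s') : ℂˣ)) : ℂ) •
        ((((α (q (s * s')) (q (s * s'))⁻¹)⁻¹ : ℂˣ) : ℂ) • Module.Dual.transpose (T (s * s')⁻¹))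
    have e1 := hT.mul s'⁻¹ (S.inv_mem hs') s⁻¹ (S.inv_mem hs)
    have e2 : (Module.Dual.transpose (T s⁻¹) : Module.End ℂ (Module.Dual ℂ V)) *
        (Module.Dual.transpose (T s'⁻¹) : Module.End ℂ (Module.Dual ℂ V)) =
        ((α (q s')⁻¹ (q s)⁻¹ : ℂˣ) : ℂ) • Module.Dual.transpose (T (s * s')⁻¹) := by
      have e3 : (Module.Dual.transpose (T s⁻¹) : Module.End ℂ (Module.Dual ℂ V)) *
        (Module.Dual.transpose (T s'⁻¹) : Module.End ℂ (Module.Dual ℂ V)) =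
        Module.Dual.transpose (T s'⁻¹ * T s⁻¹) := rfl
      rw [e3, e1, map_smul, ← mul_inv_rev, map_inv, map_inv]
    rw [smul_mul_smul_comm, e2, smul_smul, smul_smul]
    congr 1
    have e4 := TDU_id hα' (q s) (q s')
    rw [map_mul, Pi.inv_apply, Pi.inv_apply, ← Units.val_mul, ← Units.val_mul, ← Units.val_mul, e4]
  · intro h hh
    show ψ h⁻¹ = LinearMap.trace ℂ (Module.Dual ℂ V)
      ((((α (q h) (q h)⁻¹)⁻¹ : ℂˣ) : ℂ) • Module.Dual.transpose (T h⁻¹))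
    have hk : q h = 1 := hh.2
    rw [hk, h2, inv_one, Units.val_one, one_smul, LinearMap.trace_transpose']
    exact hT.tr _ ((S ⊓ q.ker).inv_mem hh)

end Pool.Agent.DR
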