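import Pool.Agent.helper35.DR.SpecZ

set_option autoImplicit false

namespace Pool.Agent.DR

open Pool.Agent.helper58.DC Pool.Agent.DI

theorem ZNU (hZFN : ZFN_stmt) (hGCN : GCN_stmt) (hGCC : GCC_stmt) (hZNA : ZNA_stmt)
    (hZNB : ZNB_stmt) (hZNC : ZNC_stmt) (hZND : ZND_stmt) : ZNU_stmt := by
  intro A _ _ N hN r hr hrN hne
  have hn1 : 1 ≤ r ^ padicValNat r (Nat.card A) := Nat.one_le_pow _ _ hr.pos
  obtain ⟨n, hn⟩ : ∃ n, n = r ^ padicValNat r (Nat.card A) := ⟨_, rfl⟩
  rw [← hn] at hn1 ⊢
  obtain ⟨_, hfin, _⟩ := hZFN A n hn1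
  have hz : 0 < Nat.card (Zn A n) := by
    have := hfin
    exact Nat.card_pos
  have hNpos : 0 < Nat.card N := Nat.card_pos
  have hκ1 := (hZNA A N hN n hn1).1
  by_cases hcen : ∃ a : A, ∃ x ∈ N, a * x ≠ x * a
  · have hκ2 := (hZNA A N hN n hn1).2 hcen
    obtain ⟨t, ht⟩ := hGCN A N hN hcen
    rw [ht]
    rw [ht] at hne
    rcases Nat.lt_or_ge t 2 with h | h
    · interval_cases t
      · rw [mul_zero, mul_zero]
        exact Nat.mul_ne_zero hNpos.ne' (by omega)
      · exact absurd (mul_one _) hne
    · have h1 : Nat.card N * GN (N.comap (prC A n)) 1 (fun _ => True) ≤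
          Nat.card N * Nat.card (Zn A n) := Nat.mul_le_mul_left _ hκ2
      have h2 : Nat.card (Zn A n) * (Nat.card N * 2) ≤ Nat.card (Zn A n) * (Nat.card N * t) :=
        Nat.mul_le_mul_left _ (Nat.mul_le_mul_left _ h)
      have h3 : 0 < Nat.card N * Nat.card (Zn A n) := Nat.mul_pos hNpos hz
      have h4 : Nat.card (Zn A n) * (Nat.card N * 2) = 2 * (Nat.card N * Nat.card (Zn A n)) := by
        ring
      omega
  · have hcen' : ∀ a : A, ∀ x ∈ N, a * x = x * a := by
      intro a x hx
      by_contra h
      exact hcen ⟨a, x, hx, h⟩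
    obtain ⟨hp, hc, hV⟩ := hGCC A N hN hcen'
    have hrc : Nat.card N = r := by
      have := Fact.mk hr
      obtain ⟨j, hj⟩ := IsPGroup.iff_card.mp hrN
      rw [hj] at hp ⊢
      have := hp.eq_one_of_pow
      rw [this, pow_one]
    obtain ⟨hB1, hB2, _⟩ := hZNB A N hN hcen' n hn1
    rcases hc with hc | ⟨k, hk⟩
    · rw [hc, mul_zero]
      exact Nat.mul_ne_zero hNpos.ne' (by omega)
    · have h2N : 2 ≤ Nat.card N := hp.two_le
      rcases Nat.lt_or_ge k 2 with h | h
      · interval_cases k
        · rw [pow_zero] at hk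
          have h1 := hZNC A N hN hcen' hk (padicValNat r (Nat.card A))
          rw [hrc, ← hn] at h1
          rw [hB2.2 h1, hk, mul_one]
          have h3 : 2 * Nat.card (Zn A n) ≤ Nat.card N * Nat.card (Zn A n) :=
            Nat.mul_le_mul_right _ h2N
          have h4 : Nat.card N * Nat.card (Zn A n) ≤
              Nat.card N * (Nat.card N * Nat.card (Zn A n)) := Nat.le_mul_of_pos_left _ hNpos
          omega
        · rw [pow_one] at hk
          exact absurd hk hne
      · have hlt : 1 < ncpl N := by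
          rw [hk]
          exact Nat.one_lt_pow (by omega) h2N
        obtain ⟨V, hVc⟩ : ∃ V : Subgroup A, IsCpl N V := by
          have h0 : Nat.card {V : Subgroup A // IsCpl N V} ≠ 0 := by
            have : ncpl N ≠ 0 := by omega
            exact this
          obtain ⟨⟨V, hV⟩⟩ := (Nat.card_ne_zero.mp h0).1
          exact ⟨V, hV⟩
        have hθ : ∃ θ : V →* N, θ ≠ 1 := by
          by_contra hno
          have hall : ∀ θ : V →* N, θ = 1 := by
            intro θ
            by_contra h
            exact hno ⟨θ, h⟩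
          have : Subsingleton (V →* N) := ⟨fun a b => by rw [hall a, hall b]⟩
          have h1 := hV V hVc
          have h2 : Nat.card (V →* N) ≤ 1 := Finite.card_le_one_iff_subsingleton.mpr inferInstance
          omega
        have h5 := hZND A N hN hcen' V hVc hθ
        rw [hrc, ← hn] at h5
        have h6 : GN (N.comap (prC A n)) 1 (fun _ => True) ≠ Nat.card N * Nat.card (Zn A n) :=
          fun h => h5 (hB2.1 h)
        have h7 : GN (N.comap (prC A n)) 1 (fun _ => True) < Nat.card N * Nat.card (Zn A n) :=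
          lt_of_le_of_ne hB1 h6
        have h8 : Nat.card N * GN (N.comap (prC A n)) 1 (fun _ => True) <
            Nat.card N * (Nat.card N * Nat.card (Zn A n)) := Nat.mul_lt_mul_of_pos_left h7 hNpos
        have h9 : Nat.card (Zn A n) * Nat.card N ^ 2 ≤ Nat.card (Zn A n) * ncpl N := by
          rw [hk]
          exact Nat.mul_le_mul_left _ (Nat.pow_le_pow_right hNpos h)
        have h10 : Nat.card (Zn A n) * Nat.card N ^ 2 =
            Nat.card N * (Nat.card N * Nat.card (Zn A n)) := by ring
        omega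

end Pool.Agent.DR
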